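import Mathlib

/-!
# The differential of `(g, x) ↦ (g ν(x_i))_i`
-/

set_option autoImplicit false
set_option linter.unusedSimpArgs false

namespace Pool.Agent.Helper91K9.Ver

/-- exponents of the cubic monomials in three variables -/
def ex : Fin 10 → Fin 3 → ℕ :=
  ![![0,0,3],![0,1,2],![0,2,1],![0,3,0],![1,0,2],![1,1,1],![1,2,0],![2,0,1],![2,1,0],![3,0,0]]

/-- the vector of the cubic monomials -/
def nu {R : Type*} [CommRing R] (x : Fin 3 → R) (k : Fin 10) : R :=
  x 0 ^ ex k 0 * x 1 ^ ex k 1 * x 2 ^ ex k 2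

/-- the partial derivatives of the cubic monomials -/
def dnu (c : Fin 3) (x : Fin 3 → ℂ) (k : Fin 10) : ℂ :=
  ![(ex k 0 : ℂ) * x 0 ^ (ex k 0 - 1) * x 1 ^ ex k 1 * x 2 ^ ex k 2,
    x 0 ^ ex k 0 * ((ex k 1 : ℂ) * x 1 ^ (ex k 1 - 1)) * x 2 ^ ex k 2,
    x 0 ^ ex k 0 * x 1 ^ ex k 1 * ((ex k 2 : ℂ) * x 2 ^ (ex k 2 - 1))] c

lemma nu_smul {R : Type*} [CommRing R] (c : R) (x : Fin 3 → R) : nu (c • x) = c ^ 3 • nu x := by
  ext k
  simp only [nu, Pi.smul_apply, smul_eq_mul, mul_pow]
  have : c ^ 3 = c ^ ex k 0 * c ^ ex k 1 * c ^ ex k 2 := by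
    rw [← pow_add, ← pow_add]
    congr 1
    fin_cases k <;> rfl
  rw [this]; ring

lemma nu_map {R S : Type*} [CommRing R] [CommRing S] (f : R →+* S) (x : Fin 3 → R) (k : Fin 10) :
    f (nu x k) = nu (fun c => f (x c)) k := by
  simp only [nu, map_mul, map_pow]

lemma hasDerivAt_nu (x : Fin 3 → ℂ) (c : Fin 3) (k : Fin 10) :
    HasDerivAt (fun s : ℂ => nu (x + s • Pi.single c 1) k) (dnu c x k) 0 := by
  fin_cases c
  · have h : (fun s : ℂ => nu (x + s • Pi.single (0 : Fin 3) 1) k) =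
        fun s => (x 0 + s) ^ ex k 0 * x 1 ^ ex k 1 * x 2 ^ ex k 2 := by
      ext s; simp [nu, Pi.single_apply]
    show HasDerivAt (fun s : ℂ => nu (x + s • Pi.single (0 : Fin 3) 1) k) _ 0
    rw [h]
    have := ((((hasDerivAt_id' (0 : ℂ)).const_add (x 0)).pow (ex k 0)).mul_const
      (x 1 ^ ex k 1)).mul_const (x 2 ^ ex k 2)
    simpa [dnu] using this
  · have h : (fun s : ℂ => nu (x + s • Pi.single (1 : Fin 3) 1) k) =
        fun s => x 0 ^ ex k 0 * (x 1 + s) ^ ex k 1 * x 2 ^ ex k 2 := by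
      ext s; simp [nu, Pi.single_apply]
    show HasDerivAt (fun s : ℂ => nu (x + s • Pi.single (1 : Fin 3) 1) k) _ 0
    rw [h]
    have := ((((hasDerivAt_id' (0 : ℂ)).const_add (x 1)).pow (ex k 1)).const_mul
      (x 0 ^ ex k 0)).mul_const (x 2 ^ ex k 2)
    simpa [dnu] using this
  · have h : (fun s : ℂ => nu (x + s • Pi.single (2 : Fin 3) 1) k) =
        fun s => x 0 ^ ex k 0 * x 1 ^ ex k 1 * (x 2 + s) ^ ex k 2 := by
      ext s; simp [nu, Pi.single_apply]
    show HasDerivAt (fun s : ℂ => nu (x + s • Pi.single (2 : Fin 3) 1) k) _ 0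
    rw [h]
    have := (((hasDerivAt_id' (0 : ℂ)).const_add (x 2)).pow (ex k 2)).const_mul
      (x 0 ^ ex k 0 * x 1 ^ ex k 1)
    simpa [dnu] using this

/-- the map `(g, x) ↦ (g ν(x_i))_i` -/
def Phi (z : (Fin 10 → Fin 10 → ℂ) × (Fin 13 → Fin 3 → ℂ)) : Fin 13 → Fin 10 → ℂ :=
  fun i k => ∑ j, z.1 k j * nu (z.2 i) j

lemma contDiff_Phi : ContDiff ℂ 1 Phi := by
  unfold Phi nu
  rw [contDiff_pi]; intro i
  rw [contDiff_pi]; intro k
  apply ContDiff.sum
  intro j _
  have h1 : ContDiff ℂ 1 (fun z : (Fin 10 → Fin 10 → ℂ) × (Fin 13 → Fin 3 → ℂ) => z.1 k j) :=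
    (contDiff_apply_apply ℂ ℂ k j).comp contDiff_fst
  have h2 : ∀ c, ContDiff ℂ 1
      (fun z : (Fin 10 → Fin 10 → ℂ) × (Fin 13 → Fin 3 → ℂ) => z.2 i c) := fun c =>
    (contDiff_apply_apply ℂ ℂ i c).comp contDiff_snd
  exact h1.mul ((((h2 0).pow _).mul ((h2 1).pow _)).mul ((h2 2).pow _))

/-- the points `x_i` are such that the differential is surjective -/
def Good (x : Fin 13 → Fin 3 → ℂ) : Prop :=
  ∀ t : Fin 13 → Fin 10 → ℂ, (∀ k j, ∑ i, t i k * nu (x i) j = 0) →
    (∀ i c, ∑ k, t i k * dnu c (x i) k = 0) → t = 0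

lemma surj (g : Fin 10 → Fin 10 → ℂ) (hg : (Matrix.of g).det ≠ 0) (x : Fin 13 → Fin 3 → ℂ)
    (hx : Good x) : (fderiv ℂ Phi (g, x)).range = ⊤ := by
  by_contra hne
  have hd : HasFDerivAt Phi (fderiv ℂ Phi (g, x))
      (g, x) :=
    ((contDiff_Phi.differentiable one_ne_zero) _).hasFDerivAt
  set L := fderiv ℂ Phi (g, x) with hL
  obtain ⟨f, hf0, hf⟩ := Submodule.exists_le_ker_of_lt_top _ (lt_top_iff_ne_top.2 hne)
  have hfL : ∀ v, f (L v) = 0 := fun v => hf ⟨v, rfl⟩
  set t : Fin 13 → Fin 10 → ℂ := fun i k => f (Pi.single i (Pi.single k 1)) with ht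
  have hfw : ∀ w : Fin 13 → Fin 10 → ℂ, f w = ∑ i, ∑ k, t i k * w i k := by
    intro w
    have hw : w = ∑ i, ∑ k, w i k • (Pi.single i (Pi.single k (1 : ℂ)) : Fin 13 → Fin 10 → ℂ) := by
      ext i k
      simp only [Finset.sum_apply, Pi.smul_apply, smul_eq_mul]
      rw [Finset.sum_eq_single i, Finset.sum_eq_single k]
      · simp
      · intro b _ hb
        simp [Pi.single_apply, hb.symm]
      · simp
      · intro b _ hb
        simp [Pi.single_apply, hb.symm]
      · simp
    conv_lhs => rw [hw]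
    simp only [map_sum, map_smul, smul_eq_mul, ht]
    exact Finset.sum_congr rfl fun i _ => Finset.sum_congr rfl fun k _ => mul_comm _ _
  have hcomp : ∀ v i k, HasDerivAt
      (fun s : ℂ => Phi ((g, x) + s • v) i k) (L v i k) 0 := by
    intro v i k
    have h1 := hd.hasLineDerivAt v
    have h2 : HasDerivAt (fun s : ℂ => Phi ((g, x) + s • v)) (L v) 0 := h1
    exact (hasDerivAt_pi.1 ((hasDerivAt_pi.1 h2) i)) k
  -- direction of `g`
  have hG : ∀ (δ : Fin 10 → Fin 10 → ℂ) i k, L (δ, 0) i k = ∑ j, δ k j * nu (x i) j := by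
    intro δ i k
    have h1 := hcomp (δ, 0) i k
    have h2 : (fun s : ℂ => Phi ((g, x) + s • (δ, 0)) i k) =
        fun s => (∑ j, g k j * nu (x i) j) + s * ∑ j, δ k j * nu (x i) j := by
      ext s
      simp only [Phi, Prod.fst_add, Prod.smul_fst, Prod.snd_add, Prod.smul_snd, smul_zero, add_zero, Pi.zero_apply,
        Pi.add_apply, Pi.smul_apply, smul_eq_mul]
      rw [Finset.mul_sum, ← Finset.sum_add_distrib]
      exact Finset.sum_congr rfl fun j _ => by ring
    rw [h2] at h1
    have h3 := ((hasDerivAt_id' (0 : ℂ)).mul_const (∑ j, δ k j * nu (x i) j)).const_add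
      (∑ j, g k j * nu (x i) j)
    simpa using h1.unique h3
  -- direction of `x`
  have hX : ∀ (i₀ : Fin 13) (c : Fin 3) i k,
      L (0, Pi.single i₀ (Pi.single c 1)) i k =
        if i = i₀ then ∑ j, g k j * dnu c (x i) j else 0 := by
    intro i₀ c i k
    have h1 := hcomp (0, Pi.single i₀ (Pi.single c 1)) i k
    by_cases hi : i = i₀
    · subst hi
      rw [if_pos rfl]
      have h2 : (fun s : ℂ => Phi ((g, x) +
          s • ((0 : Fin 10 → Fin 10 → ℂ), (Pi.single i (Pi.single c (1 : ℂ)) :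
            Fin 13 → Fin 3 → ℂ))) i k) =
          fun s => ∑ j, g k j * nu (x i + s • Pi.single c 1) j := by
        ext s
        simp [Phi]
      rw [h2] at h1
      have h3 : HasDerivAt (fun s : ℂ => ∑ j, g k j * nu (x i + s • Pi.single c 1) j)
          (∑ j, g k j * dnu c (x i) j) 0 := by
        exact HasDerivAt.fun_sum (u := Finset.univ)
          (fun j _ => (hasDerivAt_nu (x i) c j).const_mul (g k j))
      exact h1.unique h3
    · rw [if_neg hi]
      have h2 : (fun s : ℂ => Phi ((g, x) +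
          s • ((0 : Fin 10 → Fin 10 → ℂ), (Pi.single i₀ (Pi.single c (1 : ℂ)) :
            Fin 13 → Fin 3 → ℂ))) i k) = fun _ => ∑ j, g k j * nu (x i) j := by
        ext s
        simp [Phi, Pi.single_eq_of_ne hi]
      rw [h2] at h1
      exact h1.unique (hasDerivAt_const _ _)
  -- the functional in terms of `gᵀ t`
  have hT := hx (fun i j => ∑ k, g k j * t i k) ?_ ?_
  · have ht0 : t = 0 := by
      ext i k
      have h1 : (Matrix.of g).transpose.mulVec (t i) = 0 := by
        ext j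
        have := congrFun (congrFun hT i) j
        simpa [Matrix.mulVec, dotProduct] using this
      have h2 : t i = 0 := by
        have h3 : (Matrix.of g).transpose.det ≠ 0 := by rwa [Matrix.det_transpose]
        exact Matrix.eq_zero_of_mulVec_eq_zero h3 h1
      rw [h2]; rfl
    apply hf0
    refine LinearMap.ext fun w => ?_
    rw [hfw, ht0]
    simp
  · intro k j
    -- use δ with a single entry
    have key : ∀ l : Fin 10, ∑ i, t i l * nu (x i) j = 0 := by
      intro l
      have h1 := hfL (Pi.single l (Pi.single j 1), 0)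
      rw [hfw] at h1
      simp only [hG] at h1
      rw [← h1]
      apply Finset.sum_congr rfl
      intro i _
      rw [Finset.sum_eq_single l]
      · congr 1
        rw [Finset.sum_eq_single j]
        · simp
        · intro b _ hb
          simp [Pi.single_apply, hb]
        · simp
      · intro b _ hb
        simp [Pi.single_apply, hb]
      · simp
    calc ∑ i, (∑ l, g l k * t i l) * nu (x i) j
        = ∑ l, g l k * ∑ i, t i l * nu (x i) j := by
          simp only [Finset.sum_mul, Finset.mul_sum]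
          rw [Finset.sum_comm]
          exact Finset.sum_congr rfl fun l _ => Finset.sum_congr rfl fun i _ => by ring
      _ = 0 := by simp [key]
  · intro i c
    have h1 := hfL (0, Pi.single i (Pi.single c 1))
    rw [hfw] at h1
    simp only [hX] at h1
    rw [Finset.sum_eq_single i] at h1
    · simp only [if_true] at h1
      rw [← h1]
      simp only [Finset.sum_mul, Finset.mul_sum]
      rw [Finset.sum_comm]
      exact Finset.sum_congr rfl fun l _ => Finset.sum_congr rfl fun i _ => by ring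
    · intro b _ hb
      simp [hb]
    · simp

end Pool.Agent.Helper91K9.Ver
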