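import Mathlib
import Pool.Agent.Helper91K9.Ver.Diff

/-!
# A criterion for the finiteness of the intersection of two Veronese surfaces
-/

set_option autoImplicit false
set_option linter.unusedSimpArgs false

namespace Pool.Agent.Helper91K9.Ver

open Polynomial in
lemma fin_values {A : Type} (X : A → ℂ) (V : Submodule ℂ (A → ℂ)) [FiniteDimensional ℂ V]
    (h1 : (1 : A → ℂ) ∈ V) (hX : ∀ f ∈ V, X * f ∈ V) : (Set.range X).Finite := by
  let L : V →ₗ[ℂ] V := (LinearMap.mulLeft ℂ X).restrict hX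
  have hL : ∀ v : V, ((L v : V) : A → ℂ) = X * (v : A → ℂ) := fun v => rfl
  have hpow : ∀ n : ℕ, (((L ^ n) ⟨1, h1⟩ : V) : A → ℂ) = X ^ n := by
    intro n
    induction n with
    | zero => simp
    | succ n ih =>
      rw [pow_succ', Module.End.mul_apply, hL, ih, pow_succ']
  have hp : ∀ p : ℂ[X], (((aeval L p) ⟨1, h1⟩ : V) : A → ℂ) = fun a => p.eval (X a) := by
    intro p
    induction p using Polynomial.induction_on' with
    | add p q hp hq =>
      ext a
      simp only [map_add, LinearMap.add_apply, Submodule.coe_add, hp, hq, Pi.add_apply, eval_add]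
    | monomial n c =>
      ext a
      rw [aeval_monomial, Module.End.mul_apply, Module.algebraMap_end_apply, Submodule.coe_smul,
        hpow, Pi.smul_apply, Pi.pow_apply, eval_monomial, smul_eq_mul]
  have hint : IsIntegral ℂ L := Algebra.IsIntegral.isIntegral L
  have hne : minpoly ℂ L ≠ 0 := minpoly.ne_zero hint
  have h0 := hp (minpoly ℂ L)
  have h00 : (aeval L) (minpoly ℂ L) = 0 := minpoly.aeval ℂ L
  have h2 : ∀ a, (minpoly ℂ L).eval (X a) = 0 := by
    intro a
    have h3 := congrFun h0 a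
    have h4 : (((aeval L) (minpoly ℂ L)) ⟨1, h1⟩ : V) = 0 := by
      have := LinearMap.congr_fun h00 ⟨1, h1⟩
      exact this
    rw [h4] at h3
    exact h3.symm
  apply ((minpoly ℂ L).roots.toFinset.finite_toSet).subset
  rintro _ ⟨a, rfl⟩
  simp only [Finset.mem_coe, Multiset.mem_toFinset]
  exact (mem_roots hne).2 (h2 a)

/-- the indices of seven quadrics through the Veronese surface -/
def qi : Fin 7 → Fin 10 := ![0, 0, 4, 2, 5, 2, 2]
def qj : Fin 7 → Fin 10 := ![8, 9, 9, 6, 9, 8, 9]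
def qk : Fin 7 → Fin 10 := ![1, 4, 7, 3, 7, 3, 6]
def ql : Fin 7 → Fin 10 := ![7, 7, 7, 5, 8, 7, 7]

lemma quad_ex (q : Fin 7) (c : Fin 3) : ex (qi q) c + ex (qj q) c = ex (qk q) c + ex (ql q) c := by
  revert q c; decide

/-- the seven quadrics -/
def quad (q : Fin 7) (z : Fin 10 → ℂ) : ℂ := z (qi q) * z (qj q) - z (qk q) * z (ql q)

lemma quad_nu (q : Fin 7) (x : Fin 3 → ℂ) : quad q (nu x) = 0 := by
  simp only [quad, nu]
  have h0 := quad_ex q 0
  have h1 := quad_ex q 1
  have h2 := quad_ex q 2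
  have : ∀ a b : Fin 10, x 0 ^ ex a 0 * x 1 ^ ex a 1 * x 2 ^ ex a 2 *
      (x 0 ^ ex b 0 * x 1 ^ ex b 1 * x 2 ^ ex b 2) =
      x 0 ^ (ex a 0 + ex b 0) * x 1 ^ (ex a 1 + ex b 1) * x 2 ^ (ex a 2 + ex b 2) := by
    intro a b
    simp only [pow_add]; ring
  rw [this, this, h0, h1, h2, sub_self]

lemma quad_smul (q : Fin 7) (c : ℂ) (z : Fin 10 → ℂ) : quad q (c • z) = c ^ 2 * quad q z := by
  simp only [quad, Pi.smul_apply, smul_eq_mul]; ring

/-- the coefficients of the products of the monomials in the `q`-th quadric composed with `M` -/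
def cf {R : Type*} [CommRing R] (M : Matrix (Fin 10) (Fin 10) R) (q : Fin 7) (a b : Fin 10) : R :=
  M (qi q) a * M (qj q) b - M (qk q) a * M (ql q) b

/-- the coefficients of the restrictions of the seven quadrics to the line at infinity -/
def Tm {R : Type*} [CommRing R] (M : Matrix (Fin 10) (Fin 10) R) : Matrix (Fin 7) (Fin 7) R :=
  fun q e => ∑ a, ∑ b, if ex a 2 = 0 ∧ ex b 2 = 0 ∧ ex a 1 + ex b 1 = (e : ℕ) then cf M q a b else 0

lemma Tm_map {R S : Type*} [CommRing R] [CommRing S] (f : R →+* S)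
    (M : Matrix (Fin 10) (Fin 10) R) : f.mapMatrix (Tm M) = Tm (f.mapMatrix M) := by
  ext q e
  simp only [RingHom.mapMatrix_apply, Matrix.map_apply, Tm, map_sum, cf]
  refine Finset.sum_congr rfl fun a _ => Finset.sum_congr rfl fun b _ => ?_
  split_ifs <;> simp

lemma Tm_smul {R : Type*} [CommRing R] (c : R) (M : Matrix (Fin 10) (Fin 10) R) :
    Tm (c • M) = (c ^ 2) • Tm M := by
  ext q e
  simp only [Tm, cf, Matrix.smul_apply, smul_eq_mul, Finset.mul_sum]
  refine Finset.sum_congr rfl fun a _ => Finset.sum_congr rfl fun b _ => ?_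
  split_ifs
  · ring
  · simp

lemma quad_expand (M : Matrix (Fin 10) (Fin 10) ℂ) (q : Fin 7) (x : Fin 3 → ℂ) :
    quad q (M.mulVec (nu x)) = ∑ a, ∑ b, cf M q a b *
      (x 0 ^ (ex a 0 + ex b 0) * x 1 ^ (ex a 1 + ex b 1) * x 2 ^ (ex a 2 + ex b 2)) := by
  simp only [quad, Matrix.mulVec, dotProduct, cf]
  rw [Finset.sum_mul_sum, Finset.sum_mul_sum, ← Finset.sum_sub_distrib]
  refine Finset.sum_congr rfl fun a _ => ?_
  rw [← Finset.sum_sub_distrib]
  refine Finset.sum_congr rfl fun b _ => ?_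
  simp only [nu, pow_add]; ring

lemma ex_top : ∀ a b : Fin 10, ex a 2 = 0 → ex b 2 = 0 →
    ex a 0 + ex b 0 = 6 - (ex a 1 + ex b 1) ∧ ex a 1 + ex b 1 < 7 := by decide

lemma ex_low : ∀ a b : Fin 10, ¬ (ex a 2 = 0 ∧ ex b 2 = 0) →
    (ex a 0 + ex b 0) + (ex a 1 + ex b 1) ≤ 5 := by decide

/-- the sum of the terms at infinity -/
lemma top_sum {E : Type*} [AddCommGroup E] [Module ℂ E] (M : Matrix (Fin 10) (Fin 10) ℂ)
    (q : Fin 7) (v : ℕ → E) :
    ∑ a, ∑ b, (if ex a 2 = 0 ∧ ex b 2 = 0 then cf M q a b • v (ex a 1 + ex b 1) else 0) =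
      ∑ e : Fin 7, Tm M q e • v e := by
  simp only [Tm, Finset.sum_smul]
  rw [Finset.sum_comm' (s := Finset.univ) (t := fun _ => Finset.univ) (t' := Finset.univ)
    (s' := fun _ => Finset.univ) (by simp)]
  rw [Finset.sum_comm]
  conv_rhs => rw [Finset.sum_comm]
  refine Finset.sum_congr rfl fun a _ => ?_
  conv_rhs => rw [Finset.sum_comm]
  refine Finset.sum_congr rfl fun b _ => ?_
  by_cases h : ex a 2 = 0 ∧ ex b 2 = 0
  · rw [if_pos h]
    have hlt := (ex_top a b h.1 h.2).2
    rw [Finset.sum_eq_single (⟨ex a 1 + ex b 1, hlt⟩ : Fin 7)]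
    · simp [h]
    · intro e _ he
      rw [if_neg, zero_smul]
      rintro ⟨-, -, h3⟩
      exact he (Fin.ext h3.symm)
    · simp
  · rw [if_neg h]
    symm
    apply Finset.sum_eq_zero
    intro e _
    rw [if_neg, zero_smul]
    rintro ⟨h1, h2, -⟩
    exact h ⟨h1, h2⟩

lemma no_point_at_infinity (M : Matrix (Fin 10) (Fin 10) ℂ) (hT : (Tm M).det ≠ 0)
    (x : Fin 3 → ℂ) (hx : ∀ q, quad q (M.mulVec (nu x)) = 0) (h2 : x 2 = 0) : x = 0 := by
  have h : ∀ q, ∑ e : Fin 7, Tm M q e • (x 0 ^ (6 - (e : ℕ)) * x 1 ^ (e : ℕ)) = 0 := by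
    intro q
    rw [← top_sum M q (fun e => x 0 ^ (6 - e) * x 1 ^ e)]
    refine Eq.trans ?_ ((quad_expand M q x).symm.trans (hx q))
    refine Finset.sum_congr rfl fun a _ => Finset.sum_congr rfl fun b _ => ?_
    split_ifs with h
    · rw [(ex_top a b h.1 h.2).1, h.1, h.2, smul_eq_mul]
      simp
    · rw [h2, zero_pow (by
        intro h'
        apply h
        omega), mul_zero, mul_zero]
  have hv : (Tm M).mulVec (fun e : Fin 7 => x 0 ^ (6 - (e : ℕ)) * x 1 ^ (e : ℕ)) = 0 := by
    ext q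
    simpa [Matrix.mulVec, dotProduct, smul_eq_mul] using h q
  have hz := Matrix.eq_zero_of_mulVec_eq_zero hT hv
  have e0 := congrFun hz 0
  have e6 := congrFun hz 6
  simp at e0 e6
  ext c
  fin_cases c
  · exact e0
  · exact e6
  · exact h2

/-- finitely many points of the affine plane -/
lemma fin_affine (M : Matrix (Fin 10) (Fin 10) ℂ) (hT : (Tm M).det ≠ 0) :
    {p : ℂ × ℂ | ∀ q, quad q (M.mulVec (nu ![p.1, p.2, 1])) = 0}.Finite := by
  set A := {p : ℂ × ℂ | ∀ q, quad q (M.mulVec (nu ![p.1, p.2, 1])) = 0} with hA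
  let mon : ℕ → ℕ → (A → ℂ) := fun i j p => p.1.1 ^ i * p.1.2 ^ j
  let ind : Finset (ℕ × ℕ) := (Finset.range 6 ×ˢ Finset.range 6).filter (fun ij => ij.1 + ij.2 ≤ 5)
  let V : Submodule ℂ (A → ℂ) := Submodule.span ℂ ((fun ij : ℕ × ℕ => mon ij.1 ij.2) '' (ind : Set (ℕ × ℕ)))
  have hVfin : FiniteDimensional ℂ V :=
    FiniteDimensional.span_of_finite ℂ ((Finset.finite_toSet ind).image _)
  have hlow : ∀ i j, i + j ≤ 5 → mon i j ∈ V := by
    intro i j hij
    apply Submodule.subset_span
    refine ⟨(i, j), ?_, rfl⟩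
    simp only [ind, Finset.coe_filter, Finset.mem_product, Finset.mem_range, Set.mem_ofPred_eq]
    omega
  have htop : ∀ e : Fin 7, mon (6 - (e : ℕ)) e ∈ V := by
    have h1 : ∀ q, ∑ e : Fin 7, Tm M q e • mon (6 - (e : ℕ)) e ∈ V := by
      intro q
      rw [← top_sum M q (fun e => mon (6 - e) e)]
      have h0 : ∑ a, ∑ b, cf M q a b • mon (ex a 0 + ex b 0) (ex a 1 + ex b 1) = 0 := by
        ext p
        have hp := p.2 q
        rw [quad_expand] at hp
        simp only [Finset.sum_apply, Pi.smul_apply, smul_eq_mul, Pi.zero_apply, mon]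
        rw [← hp]
        refine Finset.sum_congr rfl fun a _ => Finset.sum_congr rfl fun b _ => ?_
        simp
      have h2 : ∑ a, ∑ b, (if ex a 2 = 0 ∧ ex b 2 = 0 then
            cf M q a b • mon (6 - (ex a 1 + ex b 1)) (ex a 1 + ex b 1) else 0) =
          - ∑ a, ∑ b, (if ex a 2 = 0 ∧ ex b 2 = 0 then 0 else
            cf M q a b • mon (ex a 0 + ex b 0) (ex a 1 + ex b 1)) := by
        rw [eq_neg_iff_add_eq_zero]
        refine Eq.trans ?_ h0
        rw [← Finset.sum_add_distrib]
        refine Finset.sum_congr rfl fun a _ => ?_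
        rw [← Finset.sum_add_distrib]
        refine Finset.sum_congr rfl fun b _ => ?_
        split_ifs with h
        · rw [(ex_top a b h.1 h.2).1, add_zero]
        · rw [zero_add]
      rw [h2]
      apply V.neg_mem
      apply V.sum_mem
      intro a _
      apply V.sum_mem
      intro b _
      split_ifs with h
      · exact V.zero_mem
      · exact V.smul_mem _ (hlow _ _ (ex_low a b h))
    intro e
    have hunit : IsUnit (Tm M).det := isUnit_iff_ne_zero.2 hT
    have h3 : mon (6 - (e : ℕ)) e =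
        ∑ q, (Tm M)⁻¹ e q • ∑ e' : Fin 7, Tm M q e' • mon (6 - (e' : ℕ)) e' := by
      simp only [Finset.smul_sum, smul_smul]
      rw [Finset.sum_comm]
      simp only [← Finset.sum_smul]
      have h4 : ∀ e' : Fin 7, ∑ q, (Tm M)⁻¹ e q * Tm M q e' = if e = e' then 1 else 0 := by
        intro e'
        have := congrFun (congrFun (Matrix.nonsing_inv_mul (Tm M) hunit) e) e'
        rw [Matrix.mul_apply, Matrix.one_apply] at this
        exact this
      simp only [h4]
      rw [Finset.sum_eq_single e]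
      · simp
      · intro b _ hb
        simp [hb.symm]
      · simp
    rw [h3]
    exact V.sum_mem fun q _ => V.smul_mem _ (h1 q)
  have hsix : ∀ i j, i + j ≤ 6 → mon i j ∈ V := by
    intro i j hij
    rcases Nat.lt_or_ge (i + j) 6 with h | h
    · exact hlow i j (by omega)
    · have h1 := htop ⟨j, by omega⟩
      have h2 : 6 - j = i := by omega
      simp only [h2] at h1
      exact h1
  have h1V : (1 : A → ℂ) ∈ V := by
    have := hlow 0 0 (by omega)
    have h2 : mon 0 0 = 1 := by ext p; simp [mon]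
    rwa [h2] at this
  have hXmul : ∀ f ∈ V, (fun p : A => p.1.1) * f ∈ V := by
    intro f hf
    induction hf using Submodule.span_induction with
    | mem f hf =>
      obtain ⟨⟨i, j⟩, hij, rfl⟩ := hf
      simp only [ind, Finset.coe_filter, Finset.mem_product, Finset.mem_range,
        Set.mem_ofPred_eq] at hij
      have h2 : (fun p : A => p.1.1) * mon i j = mon (i + 1) j := by
        ext p; simp only [mon, Pi.mul_apply, pow_succ]; ring
      show (fun p : A => p.1.1) * mon i j ∈ V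
      rw [h2]
      exact hsix _ _ (by omega)
    | zero => rw [mul_zero]; exact V.zero_mem
    | add f g _ _ hf hg => rw [mul_add]; exact V.add_mem hf hg
    | smul c f _ hf => rw [mul_smul_comm]; exact V.smul_mem _ hf
  have hYmul : ∀ f ∈ V, (fun p : A => p.1.2) * f ∈ V := by
    intro f hf
    induction hf using Submodule.span_induction with
    | mem f hf =>
      obtain ⟨⟨i, j⟩, hij, rfl⟩ := hf
      simp only [ind, Finset.coe_filter, Finset.mem_product, Finset.mem_range,
        Set.mem_ofPred_eq] at hij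
      have h2 : (fun p : A => p.1.2) * mon i j = mon i (j + 1) := by
        ext p; simp only [mon, Pi.mul_apply, pow_succ]; ring
      show (fun p : A => p.1.2) * mon i j ∈ V
      rw [h2]
      exact hsix _ _ (by omega)
    | zero => rw [mul_zero]; exact V.zero_mem
    | add f g _ _ hf hg => rw [mul_add]; exact V.add_mem hf hg
    | smul c f _ hf => rw [mul_smul_comm]; exact V.smul_mem _ hf
  have hX := fin_values _ V h1V hXmul
  have hY := fin_values _ V h1V hYmul
  apply (hX.prod hY).subset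
  intro p hp
  exact ⟨⟨⟨p, hp⟩, rfl⟩, ⟨⟨p, hp⟩, rfl⟩⟩

end Pool.Agent.Helper91K9.Ver
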