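import Mathlib
import Pool.Agent.Helper91K9.Ver.Diff

/-!
# The thirteen points: the nodes of a grid and two pairs of points
-/

set_option autoImplicit false
set_option linter.unusedSimpArgs false
set_option linter.unusedTactic false
set_option linter.unreachableTactic false
set_option maxHeartbeats 4000000

namespace Pool.Agent.Helper91K9.Ver

/-- the thirteen points -/
def x0 : Fin 13 → Fin 3 → ℂ :=
  ![![-1,-1,1],![-1,0,1],![-1,1,1],![0,-1,1],![0,0,1],![0,1,1],![1,-1,1],![1,0,1],![1,1,1],![0,2,1],![1,-2,1],![2,0,1],![-2,1,1]]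

lemma ker (u : Fin 13 → ℂ) (h : ∀ j, ∑ i, u i * nu (x0 i) j = 0) (i : Fin 13) :
    u i = (![1,-2,1,-2,4,-2,1,-2,1,0,0,0,0] : Fin 13 → ℂ) i * u 0 + (![0,0,0,-1,3,-3,-3,3,-1,1,1,0,0] : Fin 13 → ℂ) i * u 9 +
      (![0,-1,-3,0,3,3,0,-3,-1,0,0,1,1] : Fin 13 → ℂ) i * u 11 := by
  have e0 : 1 * u 0 + 1 * u 1 + 1 * u 2 + 1 * u 3 + 1 * u 4 + 1 * u 5 + 1 * u 6 + 1 * u 7 + 1 * u 8 + 1 * u 9 + 1 * u 10 + 1 * u 11 + 1 * u 12 = 0 := by
    refine Eq.trans ?_ (h 0)
    simp [Fin.sum_univ_succ, nu, ex, x0]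
    try ring
  have e1 : (-1) * u 0 + 1 * u 2 + (-1) * u 3 + 1 * u 5 + (-1) * u 6 + 1 * u 8 + 2 * u 9 + (-2) * u 10 + 1 * u 12 = 0 := by
    refine Eq.trans ?_ (h 1)
    simp [Fin.sum_univ_succ, nu, ex, x0]
    try ring
  have e2 : 1 * u 0 + 1 * u 2 + 1 * u 3 + 1 * u 5 + 1 * u 6 + 1 * u 8 + 4 * u 9 + 4 * u 10 + 1 * u 12 = 0 := by
    refine Eq.trans ?_ (h 2)
    simp [Fin.sum_univ_succ, nu, ex, x0]
    try ring
  have e3 : (-1) * u 0 + 1 * u 2 + (-1) * u 3 + 1 * u 5 + (-1) * u 6 + 1 * u 8 + 8 * u 9 + (-8) * u 10 + 1 * u 12 = 0 := by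
    refine Eq.trans ?_ (h 3)
    simp [Fin.sum_univ_succ, nu, ex, x0]
    try ring
  have e4 : (-1) * u 0 + (-1) * u 1 + (-1) * u 2 + 1 * u 6 + 1 * u 7 + 1 * u 8 + 1 * u 10 + 2 * u 11 + (-2) * u 12 = 0 := by
    refine Eq.trans ?_ (h 4)
    simp [Fin.sum_univ_succ, nu, ex, x0]
    try ring
  have e5 : 1 * u 0 + (-1) * u 2 + (-1) * u 6 + 1 * u 8 + (-2) * u 10 + (-2) * u 12 = 0 := by
    refine Eq.trans ?_ (h 5)
    simp [Fin.sum_univ_succ, nu, ex, x0]
    try ring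
  have e6 : (-1) * u 0 + (-1) * u 2 + 1 * u 6 + 1 * u 8 + 4 * u 10 + (-2) * u 12 = 0 := by
    refine Eq.trans ?_ (h 6)
    simp [Fin.sum_univ_succ, nu, ex, x0]
    try ring
  have e7 : 1 * u 0 + 1 * u 1 + 1 * u 2 + 1 * u 6 + 1 * u 7 + 1 * u 8 + 1 * u 10 + 4 * u 11 + 4 * u 12 = 0 := by
    refine Eq.trans ?_ (h 7)
    simp [Fin.sum_univ_succ, nu, ex, x0]
    try ring
  have e8 : (-1) * u 0 + 1 * u 2 + (-1) * u 6 + 1 * u 8 + (-2) * u 10 + 4 * u 12 = 0 := by
    refine Eq.trans ?_ (h 8)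
    simp [Fin.sum_univ_succ, nu, ex, x0]
    try ring
  have e9 : (-1) * u 0 + (-1) * u 1 + (-1) * u 2 + 1 * u 6 + 1 * u 7 + 1 * u 8 + 1 * u 10 + 8 * u 11 + (-8) * u 12 = 0 := by
    refine Eq.trans ?_ (h 9)
    simp [Fin.sum_univ_succ, nu, ex, x0]
    try ring
  fin_cases i
  · simp
  · show u 1 = ((-2) : ℂ) * u 0 + (0 : ℂ) * u 9 + ((-1) : ℂ) * u 11
    linear_combination (-1/2) * e4 + (1/2) * e5 + (1/2) * e7 + (-1/2) * e8
  · show u 2 = (1 : ℂ) * u 0 + (0 : ℂ) * u 9 + ((-3) : ℂ) * u 11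
    linear_combination (-1/2) * e4 + (-1/2) * e5 + (1/2) * e8 + (1/2) * e9
  · show u 3 = ((-2) : ℂ) * u 0 + ((-1) : ℂ) * u 9 + (0 : ℂ) * u 11
    linear_combination (-1/2) * e1 + (1/2) * e2 + (1/2) * e5 + (-1/2) * e6
  · show u 4 = (4 : ℂ) * u 0 + (3 : ℂ) * u 9 + (3 : ℂ) * u 11
    linear_combination 1 * e0 + (-1) * e2 + (-1) * e5 + 1 * e6 + (-1) * e7 + 1 * e8
  · show u 5 = ((-2) : ℂ) * u 0 + ((-3) : ℂ) * u 9 + (3 : ℂ) * u 11
    linear_combination (1/2) * e1 + (1/2) * e2 + (1/2) * e4 + (1/2) * e5 + (-1/2) * e6 + (-1) * e8 + (-1/2) * e9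
  · show u 6 = (1 : ℂ) * u 0 + ((-3) : ℂ) * u 9 + (0 : ℂ) * u 11
    linear_combination (-1/2) * e1 + (1/2) * e3 + (-1/2) * e5 + (1/2) * e6
  · show u 7 = ((-2) : ℂ) * u 0 + (3 : ℂ) * u 9 + ((-3) : ℂ) * u 11
    linear_combination (1/2) * e1 + (-1/2) * e3 + (1/2) * e4 + (1/2) * e5 + (-1) * e6 + (1/2) * e7 + (-1/2) * e8
  · show u 8 = (1 : ℂ) * u 0 + ((-1) : ℂ) * u 9 + ((-1) : ℂ) * u 11
    linear_combination (-1/6) * e1 + (1/6) * e3 + (-1/6) * e4 + (1/2) * e6 + (1/2) * e8 + (1/6) * e9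
  · simp
  · show u 10 = (0 : ℂ) * u 0 + (1 : ℂ) * u 9 + (0 : ℂ) * u 11
    linear_combination (1/6) * e1 + (-1/6) * e3
  · simp
  · show u 12 = (0 : ℂ) * u 0 + (0 : ℂ) * u 9 + (1 : ℂ) * u 11
    linear_combination (1/6) * e4 + (-1/6) * e9

lemma abc_zero (a b c : Fin 10 → ℂ)
    (h : ∀ i d, ∑ k, ((![1,-2,1,-2,4,-2,1,-2,1,0,0,0,0] : Fin 13 → ℂ) i * a k + (![0,0,0,-1,3,-3,-3,3,-1,1,1,0,0] : Fin 13 → ℂ) i * b k +
      (![0,-1,-3,0,3,3,0,-3,-1,0,0,1,1] : Fin 13 → ℂ) i * c k) * dnu d (x0 i) k = 0) : a = 0 ∧ b = 0 ∧ c = 0 := by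
  have f0 : 1 * a 4 + (-1) * a 5 + 1 * a 6 + (-2) * a 7 + 2 * a 8 + 3 * a 9 = 0 := by
    refine Eq.trans ?_ (h 0 0)
    simp [Fin.sum_univ_succ, dnu, ex, x0]
    try ring
  have f1 : 1 * a 1 + (-2) * a 2 + 3 * a 3 + (-1) * a 5 + 2 * a 6 + 1 * a 8 = 0 := by
    refine Eq.trans ?_ (h 0 1)
    simp [Fin.sum_univ_succ, dnu, ex, x0]
    try ring
  have f2 : 3 * a 0 + (-2) * a 1 + 1 * a 2 + (-2) * a 4 + 1 * a 5 + 1 * a 7 = 0 := by
    refine Eq.trans ?_ (h 0 2)
    simp [Fin.sum_univ_succ, dnu, ex, x0]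
    try ring
  have f3 : (-2) * a 4 + 4 * a 7 + (-6) * a 9 + (-1) * c 4 + 2 * c 7 + (-3) * c 9 = 0 := by
    refine Eq.trans ?_ (h 1 0)
    simp [Fin.sum_univ_succ, dnu, ex, x0]
    try ring
  have f5 : (-6) * a 0 + 4 * a 4 + (-2) * a 7 + (-3) * c 0 + 2 * c 4 + (-1) * c 7 = 0 := by
    refine Eq.trans ?_ (h 1 2)
    simp [Fin.sum_univ_succ, dnu, ex, x0]
    try ring
  have f6 : 1 * a 4 + 1 * a 5 + 1 * a 6 + (-2) * a 7 + (-2) * a 8 + 3 * a 9 + (-3) * c 4 + (-3) * c 5 + (-3) * c 6 + 6 * c 7 + 6 * c 8 + (-9) * c 9 = 0 := by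
    refine Eq.trans ?_ (h 2 0)
    simp [Fin.sum_univ_succ, dnu, ex, x0]
    try ring
  have f8 : 3 * a 0 + 2 * a 1 + 1 * a 2 + (-2) * a 4 + (-1) * a 5 + 1 * a 7 + (-9) * c 0 + (-6) * c 1 + (-3) * c 2 + 6 * c 4 + 3 * c 5 + (-3) * c 7 = 0 := by
    refine Eq.trans ?_ (h 2 2)
    simp [Fin.sum_univ_succ, dnu, ex, x0]
    try ring
  have f10 : (-2) * a 1 + 4 * a 2 + (-6) * a 3 + (-1) * b 1 + 2 * b 2 + (-3) * b 3 = 0 := by
    refine Eq.trans ?_ (h 3 1)
    simp [Fin.sum_univ_succ, dnu, ex, x0]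
    try ring
  have f12 : 4 * a 4 + 3 * b 4 + 3 * c 4 = 0 := by
    refine Eq.trans ?_ (h 4 0)
    simp [Fin.sum_univ_succ, dnu, ex, x0]
    try ring
  have f13 : 4 * a 1 + 3 * b 1 + 3 * c 1 = 0 := by
    refine Eq.trans ?_ (h 4 1)
    simp [Fin.sum_univ_succ, dnu, ex, x0]
    try ring
  have f14 : 12 * a 0 + 9 * b 0 + 9 * c 0 = 0 := by
    refine Eq.trans ?_ (h 4 2)
    simp [Fin.sum_univ_succ, dnu, ex, x0]
    try ring
  have f15 : (-2) * a 4 + (-2) * a 5 + (-2) * a 6 + (-3) * b 4 + (-3) * b 5 + (-3) * b 6 + 3 * c 4 + 3 * c 5 + 3 * c 6 = 0 := by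
    refine Eq.trans ?_ (h 5 0)
    simp [Fin.sum_univ_succ, dnu, ex, x0]
    try ring
  have f16 : (-2) * a 1 + (-4) * a 2 + (-6) * a 3 + (-3) * b 1 + (-6) * b 2 + (-9) * b 3 + 3 * c 1 + 6 * c 2 + 9 * c 3 = 0 := by
    refine Eq.trans ?_ (h 5 1)
    simp [Fin.sum_univ_succ, dnu, ex, x0]
    try ring
  have f17 : (-6) * a 0 + (-4) * a 1 + (-2) * a 2 + (-9) * b 0 + (-6) * b 1 + (-3) * b 2 + 9 * c 0 + 6 * c 1 + 3 * c 2 = 0 := by
    refine Eq.trans ?_ (h 5 2)
    simp [Fin.sum_univ_succ, dnu, ex, x0]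
    try ring
  have f18 : 1 * a 4 + (-1) * a 5 + 1 * a 6 + 2 * a 7 + (-2) * a 8 + 3 * a 9 + (-3) * b 4 + 3 * b 5 + (-3) * b 6 + (-6) * b 7 + 6 * b 8 + (-9) * b 9 = 0 := by
    refine Eq.trans ?_ (h 6 0)
    simp [Fin.sum_univ_succ, dnu, ex, x0]
    try ring
  have f19 : 1 * a 1 + (-2) * a 2 + 3 * a 3 + 1 * a 5 + (-2) * a 6 + 1 * a 8 + (-3) * b 1 + 6 * b 2 + (-9) * b 3 + (-3) * b 5 + 6 * b 6 + (-3) * b 8 = 0 := by
    refine Eq.trans ?_ (h 6 1)
    simp [Fin.sum_univ_succ, dnu, ex, x0]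
    try ring
  have f20 : 3 * a 0 + (-2) * a 1 + 1 * a 2 + 2 * a 4 + (-1) * a 5 + 1 * a 7 + (-9) * b 0 + 6 * b 1 + (-3) * b 2 + (-6) * b 4 + 3 * b 5 + (-3) * b 7 = 0 := by
    refine Eq.trans ?_ (h 6 2)
    simp [Fin.sum_univ_succ, dnu, ex, x0]
    try ring
  have f21 : (-2) * a 4 + (-4) * a 7 + (-6) * a 9 + 3 * b 4 + 6 * b 7 + 9 * b 9 + (-3) * c 4 + (-6) * c 7 + (-9) * c 9 = 0 := by
    refine Eq.trans ?_ (h 7 0)
    simp [Fin.sum_univ_succ, dnu, ex, x0]
    try ring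
  have f22 : (-2) * a 1 + (-2) * a 5 + (-2) * a 8 + 3 * b 1 + 3 * b 5 + 3 * b 8 + (-3) * c 1 + (-3) * c 5 + (-3) * c 8 = 0 := by
    refine Eq.trans ?_ (h 7 1)
    simp [Fin.sum_univ_succ, dnu, ex, x0]
    try ring
  have f23 : (-6) * a 0 + (-4) * a 4 + (-2) * a 7 + 9 * b 0 + 6 * b 4 + 3 * b 7 + (-9) * c 0 + (-6) * c 4 + (-3) * c 7 = 0 := by
    refine Eq.trans ?_ (h 7 2)
    simp [Fin.sum_univ_succ, dnu, ex, x0]
    try ring
  have f25 : 1 * a 1 + 2 * a 2 + 3 * a 3 + 1 * a 5 + 2 * a 6 + 1 * a 8 + (-1) * b 1 + (-2) * b 2 + (-3) * b 3 + (-1) * b 5 + (-2) * b 6 + (-1) * b 8 + (-1) * c 1 + (-2) * c 2 + (-3) * c 3 + (-1) * c 5 + (-2) * c 6 + (-1) * c 8 = 0 := by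
    refine Eq.trans ?_ (h 8 1)
    simp [Fin.sum_univ_succ, dnu, ex, x0]
    try ring
  have f27 : 1 * b 4 + 2 * b 5 + 4 * b 6 = 0 := by
    refine Eq.trans ?_ (h 9 0)
    simp [Fin.sum_univ_succ, dnu, ex, x0]
    try ring
  have f28 : 1 * b 1 + 4 * b 2 + 12 * b 3 = 0 := by
    refine Eq.trans ?_ (h 9 1)
    simp [Fin.sum_univ_succ, dnu, ex, x0]
    try ring
  have f29 : 3 * b 0 + 4 * b 1 + 4 * b 2 = 0 := by
    refine Eq.trans ?_ (h 9 2)
    simp [Fin.sum_univ_succ, dnu, ex, x0]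
    try ring
  have f30 : 1 * b 4 + (-2) * b 5 + 4 * b 6 + 2 * b 7 + (-4) * b 8 + 3 * b 9 = 0 := by
    refine Eq.trans ?_ (h 10 0)
    simp [Fin.sum_univ_succ, dnu, ex, x0]
    try ring
  have f31 : 1 * b 1 + (-4) * b 2 + 12 * b 3 + 1 * b 5 + (-4) * b 6 + 1 * b 8 = 0 := by
    refine Eq.trans ?_ (h 10 1)
    simp [Fin.sum_univ_succ, dnu, ex, x0]
    try ring
  have f33 : 1 * c 4 + 4 * c 7 + 12 * c 9 = 0 := by
    refine Eq.trans ?_ (h 11 0)
    simp [Fin.sum_univ_succ, dnu, ex, x0]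
    try ring
  have f34 : 1 * c 1 + 2 * c 5 + 4 * c 8 = 0 := by
    refine Eq.trans ?_ (h 11 1)
    simp [Fin.sum_univ_succ, dnu, ex, x0]
    try ring
  have f35 : 3 * c 0 + 4 * c 4 + 4 * c 7 = 0 := by
    refine Eq.trans ?_ (h 11 2)
    simp [Fin.sum_univ_succ, dnu, ex, x0]
    try ring
  have f38 : 3 * c 0 + 2 * c 1 + 1 * c 2 + (-4) * c 4 + (-2) * c 5 + 4 * c 7 = 0 := by
    refine Eq.trans ?_ (h 12 2)
    simp [Fin.sum_univ_succ, dnu, ex, x0]
    try ring
  have ga0 : a 0 = 0 := by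
    linear_combination (5/42) * f12 + (-1/9) * f21 + (1/21) * f25 + (-11/28) * f29 + (-4/7) * f31 + (-4/63) * f2 + (4/63) * f0 + (17/252) * f14 + (1/14) * f27 + (5/63) * f23 + (-4/21) * f10 + (-1/7) * f5 + (-1/6) * f34 + (-16/63) * f19 + (1/42) * f33 + (-13/63) * f8 + (5/14) * f28 + (-3/28) * f35 + (-3/7) * f38 + (1/9) * f6 + (-13/63) * f18 + (2/21) * f3 + (1/7) * f15 + (1/63) * f16 + (-2/7) * f30 + (-4/63) * f17 + (-1/63) * f22 + (5/126) * f13 + (5/63) * f20 + (-1/7) * f1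
  have ga1 : a 1 = 0 := by
    linear_combination (131/1092) * f12 + (-193/1638) * f21 + (11/39) * f25 + (-89/364) * f29 + (-23/91) * f31 + (-305/819) * f2 + (-178/819) * f0 + (-311/3276) * f14 + (25/52) * f27 + (-55/1638) * f23 + (1/91) * f10 + (-94/273) * f5 + (-43/1092) * f34 + (-8/63) * f19 + (-1/28) * f33 + (-529/1638) * f8 + (47/156) * f28 + (-25/156) * f35 + (-40/91) * f38 + (151/1638) * f6 + (-397/1638) * f18 + (-6/91) * f3 + (51/182) * f15 + (11/117) * f16 + (-34/91) * f30 + (-289/1638) * f17 + (31/819) * f22 + (167/3276) * f13 + (-55/1638) * f20 + (5/91) * f1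
  have ga2 : a 2 = 0 := by
    linear_combination (-1/364) * f12 + (59/1638) * f21 + (107/273) * f25 + (-97/364) * f29 + (4/91) * f31 + (179/1638) * f2 + (-142/819) * f0 + (-263/3276) * f14 + (-31/364) * f27 + (5/234) * f23 + (10/91) * f10 + (31/546) * f5 + (409/546) * f34 + (10/63) * f19 + (-1/4) * f33 + (1/117) * f8 + (163/546) * f28 + (395/1092) * f35 + (97/182) * f38 + (-479/1638) * f6 + (125/1638) * f18 + (-3/13) * f3 + (-17/546) * f15 + (107/819) * f16 + (11/91) * f30 + (-277/1638) * f17 + (232/819) * f22 + (55/1638) * f13 + (5/234) * f20 + (-19/273) * f1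
  have ga3 : a 3 = 0 := by
    linear_combination (-16/273) * f12 + (67/1638) * f21 + (89/546) * f25 + (1/182) * f29 + (19/182) * f31 + (176/819) * f2 + (-113/819) * f0 + (1/234) * f14 + (-18/91) * f27 + (5/819) * f23 + (-11/182) * f10 + (62/273) * f5 + (142/273) * f34 + (19/126) * f19 + (-4/21) * f33 + (197/819) * f8 + (41/546) * f28 + (127/546) * f35 + (64/91) * f38 + (-191/819) * f6 + (68/819) * f18 + (-101/546) * f3 + (-34/273) * f15 + (89/1638) * f16 + (23/182) * f30 + (5/819) * f17 + (283/1638) * f22 + (-1/1638) * f13 + (5/819) * f20 + (2/273) * f1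
  have ga4 : a 4 = 0 := by
    linear_combination (-1/1092) * f12 + (-223/1638) * f21 + (-11/546) * f25 + (-93/364) * f29 + (-68/91) * f31 + (19/819) * f2 + (191/819) * f0 + (337/3276) * f14 + (-71/364) * f27 + (-7/234) * f23 + (-40/91) * f10 + (68/273) * f5 + (95/1092) * f34 + (-26/63) * f19 + (-3/28) * f33 + (113/1638) * f8 + (347/1092) * f28 + (-163/1092) * f35 + (2/13) * f38 + (-43/819) * f6 + (-146/819) * f18 + (25/182) * f3 + (-6/91) * f15 + (-11/1638) * f16 + (-23/182) * f30 + (29/1638) * f17 + (29/1638) * f22 + (-37/3276) * f13 + (-7/234) * f20 + (-251/546) * f1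
  have ga5 : a 5 = 0 := by
    linear_combination (-1/84) * f12 + (-11/126) * f21 + (-1/42) * f25 + (-11/28) * f29 + (-4/7) * f31 + (2/63) * f2 + (-2/63) * f0 + (-37/252) * f14 + (3/28) * f27 + (-5/126) * f23 + (-2/7) * f10 + (-5/21) * f5 + (-17/84) * f34 + (-22/63) * f19 + (-1/28) * f33 + (-65/126) * f8 + (19/84) * f28 + (1/12) * f35 + (-5/7) * f38 + (5/126) * f6 + (-23/126) * f18 + (1/42) * f15 + (-1/126) * f16 + (-2/7) * f30 + (-5/18) * f17 + (-23/126) * f22 + (-29/252) * f13 + (-5/126) * f20 + (-3/14) * f1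
  have ga6 : a 6 = 0 := by
    linear_combination (29/1092) * f12 + (17/1092) * f21 + (-1/91) * f25 + (-7/26) * f29 + (-30/91) * f31 + (-2/91) * f2 + (-22/273) * f0 + (-15/182) * f14 + (5/364) * f27 + (5/273) * f23 + (3/91) * f10 + (-16/91) * f5 + (-2/13) * f34 + (-5/21) * f19 + (1/28) * f33 + (-89/273) * f8 + (2/13) * f28 + (23/182) * f35 + (-6/13) * f38 + (1/26) * f6 + (19/546) * f18 + (-1/52) * f3 + (17/546) * f15 + (-1/273) * f16 + (3/52) * f30 + (-47/273) * f17 + (-34/273) * f22 + (-20/273) * f13 + (5/273) * f20 + (4/13) * f1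
  have ga7 : a 7 = 0 := by
    linear_combination (-19/182) * f12 + (-101/819) * f21 + (1/78) * f25 + (305/364) * f29 + (22/91) * f31 + (575/1638) * f2 + (38/819) * f0 + (19/468) * f14 + (61/182) * f27 + (-284/819) * f23 + (-10/91) * f10 + (229/546) * f5 + (53/1092) * f34 + (-8/63) * f19 + (-1/14) * f33 + (1013/1638) * f8 + (-391/1092) * f28 + (-811/1092) * f35 + (163/182) * f38 + (-1/819) * f6 + (-95/819) * f18 + (8/91) * f3 + (2/273) * f15 + (1/234) * f16 + (2/91) * f30 + (262/819) * f17 + (95/1638) * f22 + (137/3276) * f13 + (-284/819) * f20 + (-53/546) * f1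
  have ga8 : a 8 = 0 := by
    linear_combination (-4/273) * f12 + (-2/39) * f21 + (1/91) * f25 + (-29/182) * f29 + (3/26) * f31 + (2/91) * f2 + (113/273) * f0 + (-11/182) * f14 + (2/91) * f27 + (-5/273) * f23 + (1/26) * f10 + (-10/91) * f5 + (15/182) * f34 + (5/42) * f19 + (-67/273) * f8 + (-1/91) * f28 + (3/182) * f35 + (-36/91) * f38 + (-4/273) * f6 + (-29/273) * f18 + (18/91) * f3 + (-2/273) * f15 + (1/273) * f16 + (-15/91) * f30 + (-31/273) * f17 + (1/13) * f22 + (9/182) * f13 + (-5/273) * f20 + (-25/546) * f1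
  have ga9 : a 9 = 0 := by
    linear_combination (-79/1092) * f12 + (-121/3276) * f21 + (1/273) * f25 + (129/182) * f29 + (23/91) * f31 + (188/819) * f2 + (22/819) * f0 + (19/1638) * f14 + (111/364) * f27 + (-187/819) * f23 + (-16/273) * f10 + (68/273) * f5 + (-37/546) * f34 + (-4/63) * f19 + (-1/28) * f33 + (401/819) * f8 + (-57/182) * f28 + (-257/546) * f35 + (66/91) * f38 + (22/819) * f6 + (-16/819) * f18 + (-41/364) * f3 + (8/273) * f15 + (1/819) * f16 + (19/364) * f30 + (29/117) * f17 + (-31/819) * f22 + (-25/1638) * f13 + (-187/819) * f20 + (-5/91) * f1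
  have gb0 : b 0 = 0 := by
    linear_combination (-10/273) * f12 + (20/351) * f21 + (16/819) * f25 + (187/273) * f29 + (160/273) * f31 + (356/2457) * f2 + (-272/2457) * f0 + (152/2457) * f14 + (106/273) * f27 + (-340/2457) * f23 + (160/819) * f10 + (68/273) * f5 + (-20/117) * f34 + (32/189) * f19 + (2/21) * f33 + (800/2457) * f8 + (-328/819) * f28 + (-32/91) * f35 + (40/91) * f38 + (28/351) * f6 + (212/2457) * f18 + (-8/273) * f3 + (76/819) * f15 + (16/2457) * f16 + (8/91) * f30 + (440/2457) * f17 + (-184/2457) * f22 + (-44/2457) * f13 + (-340/2457) * f20 + (176/819) * f1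
  have gb1 : b 1 = 0 := by
    linear_combination (40/819) * f12 + (4/2457) * f21 + (-4/819) * f25 + (-34/91) * f29 + (-92/273) * f31 + (-284/2457) * f2 + (536/2457) * f0 + (-194/2457) * f14 + (-24/91) * f27 + (40/351) * f23 + (-16/91) * f10 + (-220/819) * f5 + (74/819) * f34 + (-20/189) * f19 + (-140/351) * f8 + (173/819) * f28 + (254/819) * f35 + (-160/273) * f38 + (-88/2457) * f6 + (64/2457) * f18 + (4/39) * f3 + (-32/819) * f15 + (-4/2457) * f16 + (20/273) * f30 + (-500/2457) * f17 + (124/2457) * f22 + (50/2457) * f13 + (40/351) * f20 + (-200/819) * f1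
  have gb2 : b 2 = 0 := by
    linear_combination (-5/234) * f12 + (-109/2457) * f21 + (-8/819) * f25 + (10/91) * f29 + (-4/39) * f31 + (17/2457) * f2 + (-332/2457) * f0 + (80/2457) * f14 + (-5/182) * f27 + (-25/2457) * f23 + (8/273) * f10 + (67/819) * f5 + (31/819) * f34 + (-4/189) * f19 + (-1/14) * f33 + (380/2457) * f8 + (73/819) * f28 + (-38/819) * f35 + (10/39) * f38 + (-59/2457) * f6 + (-223/2457) * f18 + (-22/273) * f3 + (-25/819) * f15 + (-8/2457) * f16 + (-38/273) * f30 + (170/2457) * f17 + (2/351) * f22 + (-17/2457) * f13 + (-25/2457) * f20 + (68/819) * f1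
  have gb3 : b 3 = 0 := by
    linear_combination (5/1638) * f12 + (4/273) * f21 + (1/273) * f25 + (-1/182) * f29 + (17/273) * f31 + (2/273) * f2 + (22/819) * f0 + (-1/234) * f14 + (17/546) * f27 + (-5/819) * f23 + (4/819) * f10 + (-4/819) * f5 + (-11/546) * f34 + (1/63) * f19 + (1/42) * f33 + (-5/273) * f8 + (59/1638) * f28 + (-17/1638) * f35 + (-10/273) * f38 + (1/91) * f6 + (23/819) * f18 + (5/273) * f3 + (11/819) * f15 + (1/819) * f16 + (11/273) * f30 + (-5/819) * f17 + (-5/819) * f22 + (1/1638) * f13 + (-5/819) * f20 + (-2/273) * f1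
  have gb4 : b 4 = 0 := by
    linear_combination (10/39) * f12 + (580/2457) * f21 + (-34/819) * f25 + (95/273) * f29 + (232/273) * f31 + (-152/2457) * f2 + (-436/2457) * f0 + (-323/2457) * f14 + (-1/273) * f27 + (118/2457) * f23 + (16/39) * f10 + (-232/819) * f5 + (5/819) * f34 + (88/189) * f19 + (2/21) * f33 + (94/2457) * f8 + (-49/117) * f28 + (209/819) * f35 + (44/273) * f38 + (-124/2457) * f6 + (856/2457) * f18 + (-16/91) * f3 + (-64/819) * f15 + (-34/2457) * f16 + (92/273) * f30 + (-38/2457) * f17 + (-194/2457) * f22 + (-199/2457) * f13 + (118/2457) * f20 + (302/819) * f1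
  have gb5 : b 5 = 0 := by
    linear_combination (-127/819) * f12 + (-638/2457) * f21 + (-25/819) * f25 + (-1/546) * f29 + (-68/273) * f31 + (-176/2457) * f2 + (-1252/2457) * f0 + (773/4914) * f14 + (31/273) * f27 + (151/2457) * f23 + (4/91) * f10 + (32/117) * f5 + (43/234) * f34 + (-32/189) * f19 + (-1/3) * f33 + (895/2457) * f8 + (193/1638) * f28 + (-23/1638) * f35 + (170/273) * f38 + (-34/351) * f6 + (-1082/2457) * f18 + (-24/91) * f3 + (-32/273) * f15 + (-25/2457) * f16 + (-148/273) * f30 + (55/351) * f17 + (151/2457) * f22 + (1/4914) * f13 + (151/2457) * f20 + (73/273) * f1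
  have gb6 : b 6 = 0 := by
    linear_combination (11/819) * f12 + (58/819) * f21 + (1/39) * f25 + (-47/546) * f29 + (-8/91) * f31 + (2/39) * f2 + (35/117) * f0 + (-25/546) * f14 + (53/273) * f27 + (-5/117) * f23 + (-34/273) * f10 + (-6/91) * f5 + (-17/182) * f34 + (-2/63) * f19 + (1/7) * f33 + (-157/819) * f8 + (25/546) * f28 + (-31/546) * f35 + (-32/91) * f38 + (50/819) * f6 + (109/819) * f18 + (16/91) * f3 + (64/819) * f15 + (1/117) * f16 + (17/91) * f30 + (-61/819) * f17 + (-1/91) * f22 + (11/546) * f13 + (-5/117) * f20 + (-185/819) * f1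
  have gb7 : b 7 = 0 := by
    linear_combination (-118/273) * f12 + (-2404/2457) * f21 + (-2/117) * f25 + (-1007/273) * f29 + (-1336/273) * f31 + (-682/2457) * f2 + (2656/2457) * f0 + (98/351) * f14 + (-512/273) * f27 + (1487/2457) * f23 + (-584/273) * f10 + (-29/819) * f5 + (883/819) * f34 + (-400/189) * f19 + (-6/7) * f33 + (-2962/2457) * f8 + (2263/819) * f28 + (772/819) * f35 + (-482/273) * f38 + (-932/2457) * f6 + (-3364/2457) * f18 + (176/273) * f3 + (-320/819) * f15 + (-2/351) * f16 + (-320/273) * f30 + (-1516/2457) * f17 + (1682/2457) * f22 + (799/2457) * f13 + (668/2457) * f20 + (-1766/819) * f1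
  have gb8 : b 8 = 0 := by
    linear_combination (31/819) * f12 + (22/117) * f21 + (5/91) * f25 + (293/546) * f29 + (1/13) * f31 + (272/819) * f2 + (512/819) * f0 + (-131/1638) * f14 + (121/273) * f27 + (-257/819) * f23 + (-4/13) * f10 + (32/273) * f5 + (-139/546) * f34 + (-8/63) * f19 + (1/3) * f33 + (29/273) * f8 + (-121/546) * f28 + (-319/546) * f35 + (2/91) * f38 + (122/819) * f6 + (202/819) * f18 + (88/273) * f3 + (152/819) * f15 + (5/273) * f16 + (16/91) * f30 + (9/91) * f17 + (-7/117) * f22 + (41/1638) * f13 + (-257/819) * f20 + (-415/819) * f1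
  have gb9 : b 9 = 0 := by
    linear_combination (12/91) * f12 + (152/273) * f21 + (4/91) * f25 + (866/273) * f29 + (276/91) * f31 + (436/819) * f2 + (-464/819) * f0 + (-68/819) * f14 + (151/91) * f27 + (-202/273) * f23 + (880/819) * f10 + (446/819) * f5 + (-74/91) * f34 + (64/63) * f19 + (4/7) * f33 + (1172/819) * f8 + (-1622/819) * f28 + (-1168/819) * f35 + (556/273) * f38 + (88/273) * f6 + (536/819) * f18 + (-32/91) * f3 + (32/91) * f15 + (4/273) * f16 + (57/91) * f30 + (88/117) * f17 + (-124/273) * f22 + (-50/273) * f13 + (-424/819) * f20 + (916/819) * f1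
  have gc0 : c 0 = 0 := by
    linear_combination (-100/819) * f12 + (32/351) * f21 + (-68/819) * f25 + (-44/273) * f29 + (16/91) * f31 + (-148/2457) * f2 + (64/2457) * f0 + (-100/2457) * f14 + (-44/91) * f27 + (80/2457) * f23 + (16/273) * f10 + (-16/273) * f5 + (46/117) * f34 + (32/189) * f19 + (-8/63) * f33 + (-124/2457) * f8 + (-62/819) * f28 + (45/91) * f35 + (12/91) * f38 + (-80/351) * f6 + (464/2457) * f18 + (-80/819) * f3 + (-232/819) * f15 + (-68/2457) * f16 + (80/273) * f30 + (-232/2457) * f17 + (236/2457) * f22 + (-86/2457) * f13 + (80/2457) * f20 + (-20/819) * f1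
  have gc1 : c 1 = 0 := by
    linear_combination (-19/91) * f12 + (382/2457) * f21 + (-304/819) * f25 + (191/273) * f29 + (184/273) * f31 + (1504/2457) * f2 + (176/2457) * f0 + (505/2457) * f14 + (-103/273) * f27 + (-170/2457) * f23 + (44/273) * f10 + (596/819) * f5 + (-31/819) * f34 + (52/189) * f19 + (1/21) * f33 + (2038/2457) * f8 + (-502/819) * f28 + (-79/819) * f35 + (320/273) * f38 + (-214/2457) * f6 + (730/2457) * f18 + (-4/273) * f3 + (-274/819) * f15 + (-304/2457) * f16 + (116/273) * f30 + (154/351) * f17 + (-248/2457) * f22 + (86/351) * f13 + (-170/2457) * f20 + (20/117) * f1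
  have gc2 : c 2 = 0 := by
    linear_combination (313/273) * f12 + (-1990/2457) * f21 + (1444/819) * f25 + (-215/273) * f29 + (-640/273) * f31 + (-3400/2457) * f2 + (-1304/2457) * f0 + (-673/2457) * f14 + (967/273) * f27 + (-10/351) * f23 + (-48/91) * f10 + (-1388/819) * f5 + (-1052/819) * f34 + (-256/189) * f19 + (1/3) * f33 + (-706/351) * f8 + (1702/819) * f28 + (-1604/819) * f35 + (-935/273) * f38 + (2830/2457) * f6 + (-3994/2457) * f18 + (4/13) * f3 + (1906/819) * f15 + (1444/2457) * f16 + (-668/273) * f30 + (-1318/2457) * f17 + (8/2457) * f22 + (-578/2457) * f13 + (-10/351) * f20 + (-236/819) * f1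
  have gc3 : c 3 = 0 := by
    linear_combination (-64/91) * f12 + (134/273) * f21 + (-194/273) * f25 + (6/91) * f29 + (114/91) * f31 + (656/819) * f2 + (100/819) * f0 + (2/39) * f14 + (-216/91) * f27 + (20/273) * f23 + (25/91) * f10 + (776/819) * f5 + (430/273) * f34 + (58/63) * f19 + (-32/63) * f33 + (908/819) * f8 + (-209/273) * f28 + (1376/819) * f35 + (222/91) * f38 + (-836/819) * f6 + (272/273) * f18 + (-362/819) * f3 + (-136/91) * f15 + (-103/819) * f16 + (138/91) * f30 + (20/273) * f17 + (242/819) * f22 + (85/819) * f13 + (20/273) * f20 + (8/91) * f1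
  have gc4 : c 4 = 0 := by
    linear_combination (64/819) * f12 + (-134/2457) * f21 + (8/117) * f25 + (-2/273) * f29 + (40/273) * f31 + (76/2457) * f2 + (-328/2457) * f0 + (-2/351) * f14 + (24/91) * f27 + (-20/2457) * f23 + (16/91) * f10 + (-40/819) * f5 + (-100/819) * f34 + (16/189) * f19 + (1/21) * f33 + (-320/2457) * f8 + (-4/819) * f28 + (-46/819) * f35 + (-100/273) * f38 + (296/2457) * f6 + (-272/2457) * f18 + (-2/273) * f3 + (136/819) * f15 + (8/351) * f16 + (-46/273) * f30 + (-20/2457) * f17 + (136/2457) * f22 + (236/2457) * f13 + (-20/2457) * f20 + (200/819) * f1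
  have gc5 : c 5 = 0 := by
    linear_combination (85/1638) * f12 + (-11/351) * f21 + (194/819) * f25 + (61/182) * f29 + (-296/273) * f31 + (-500/2457) * f2 + (836/2457) * f0 + (449/4914) * f14 + (185/546) * f27 + (-125/2457) * f23 + (-220/273) * f10 + (62/819) * f5 + (-157/819) * f34 + (-20/27) * f19 + (1/42) * f33 + (121/351) * f8 + (365/819) * f28 + (-575/1638) * f35 + (116/273) * f38 + (17/2457) * f6 + (-179/2457) * f18 + (46/273) * f3 + (15/91) * f15 + (194/2457) * f16 + (-34/273) * f30 + (499/2457) * f17 + (-788/2457) * f22 + (-631/2457) * f13 + (-125/2457) * f20 + (-778/819) * f1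
  have gc6 : c 6 = 0 := by
    linear_combination (-5/819) * f12 + (-1/182) * f21 + (-106/273) * f25 + (-53/78) * f29 + (32/91) * f31 + (92/819) * f2 + (-421/819) * f0 + (-311/1638) * f14 + (-95/273) * f27 + (25/273) * f23 + (136/273) * f10 + (-58/273) * f5 + (3/13) * f34 + (16/63) * f19 + (-5/21) * f33 + (-425/819) * f8 + (-3/13) * f28 + (115/182) * f35 + (-4/13) * f38 + (-23/117) * f6 + (2/273) * f18 + (-9/26) * f3 + (-100/819) * f15 + (-106/819) * f16 + (1/26) * f30 + (-341/819) * f17 + (4/91) * f22 + (-3/91) * f13 + (25/273) * f20 + (34/39) * f1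
  have gc7 : c 7 = 0 := by
    linear_combination (11/819) * f12 + (-34/2457) * f21 + (-5/819) * f25 + (5/39) * f29 + (-76/273) * f31 + (5/351) * f2 + (40/351) * f0 + (89/2457) * f14 + (9/91) * f27 + (-40/2457) * f23 + (-20/91) * f10 + (76/819) * f5 + (-283/1638) * f34 + (-40/189) * f19 + (1/21) * f33 + (59/351) * f8 + (101/1638) * f28 + (-53/819) * f35 + (73/273) * f38 + (124/2457) * f6 + (-76/2457) * f18 + (22/273) * f3 + (38/819) * f15 + (-5/2457) * f16 + (-2/39) * f30 + (194/2457) * f17 + (-313/2457) * f22 + (-49/702) * f13 + (-40/2457) * f20 + (-185/819) * f1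
  have gc8 : c 8 = 0 := by
    linear_combination (43/1638) * f12 + (-19/819) * f21 + (-1/39) * f25 + (-187/546) * f29 + (34/91) * f31 + (-2/39) * f2 + (-22/117) * f0 + (-53/546) * f14 + (-41/546) * f27 + (5/117) * f23 + (33/91) * f10 + (-20/91) * f5 + (97/273) * f34 + (19/63) * f19 + (-1/42) * f33 + (-311/819) * f8 + (-19/273) * f28 + (109/546) * f35 + (-46/91) * f38 + (5/273) * f6 + (-31/819) * f18 + (-22/273) * f3 + (1/819) * f15 + (-1/117) * f16 + (-4/91) * f30 + (-173/819) * f17 + (152/819) * f22 + (55/819) * f13 + (5/117) * f20 + (118/273) * f1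
  have gc9 : c 9 = 0 := by
    linear_combination (-1/91) * f12 + (5/546) * f21 + (-1/273) * f25 + (-23/546) * f29 + (22/273) * f31 + (-2/273) * f2 + (-22/819) * f0 + (-19/1638) * f14 + (-5/91) * f27 + (5/819) * f23 + (16/273) * f10 + (-22/819) * f5 + (37/546) * f34 + (4/63) * f19 + (4/63) * f33 + (-37/819) * f8 + (-11/546) * f28 + (43/1638) * f35 + (-16/273) * f38 + (-22/819) * f6 + (16/819) * f18 + (-43/1638) * f3 + (-8/273) * f15 + (-1/819) * f16 + (17/546) * f30 + (-1/39) * f17 + (31/819) * f22 + (25/1638) * f13 + (5/819) * f20 + (5/91) * f1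
  refine ⟨?_, ?_, ?_⟩
  · ext k; fin_cases k
    exacts [ga0, ga1, ga2, ga3, ga4, ga5, ga6, ga7, ga8, ga9]
  · ext k; fin_cases k
    exacts [gb0, gb1, gb2, gb3, gb4, gb5, gb6, gb7, gb8, gb9]
  · ext k; fin_cases k
    exacts [gc0, gc1, gc2, gc3, gc4, gc5, gc6, gc7, gc8, gc9]


lemma good_x0 : Good x0 := by
  intro t h1 h2
  have hk := fun k => ker (fun i => t i k) (h1 k)
  have h3 := abc_zero (t 0) (t 9) (t 11) (by
    intro i d
    refine Eq.trans (Finset.sum_congr rfl fun k _ => ?_) (h2 i d)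
    rw [hk k i])
  obtain ⟨ha, hb, hc⟩ := h3
  ext i k
  rw [hk k i, ha, hb, hc]
  simp

end Pool.Agent.Helper91K9.Ver
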