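import Mathlib
import Pool.Agent.Helper91K9.Ver.Fin
import Pool.Agent.Helper91K9.Ver.Points

/-!
# The two Veronese surfaces through the thirteen special points
-/

set_option autoImplicit false
set_option linter.unusedSimpArgs false

namespace Pool.Agent.Helper91K9.Ver

/-- the integral matrix `6 φ` of the involution `φ` -/
def phiZ : Matrix (Fin 10) (Fin 10) ℤ := fun i j => (if i = j then 6 else 0) -
  (![0,-1,-1,-1,4,2,2,0,-4,16] : Fin 10 → ℤ) i * (![0,0,0,0,-1,0,0,0,0,1] : Fin 10 → ℤ) j -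
  (![0,4,0,16,-1,2,-4,-1,2,-1] : Fin 10 → ℤ) i * (![0,-1,0,1,0,0,0,0,0,0] : Fin 10 → ℤ) j

def ptZ : Fin 13 → Fin 3 → ℤ :=
  ![![-1,-1,1],![-1,0,1],![-1,1,1],![0,-1,1],![0,0,1],![0,1,1],![1,-1,1],![1,0,1],![1,1,1],
    ![0,2,1],![1,-2,1],![2,0,1],![-2,1,1]]

/-- the exchange of the two points in each of the last two pairs -/
def sw : Fin 13 → Fin 13 := ![0,1,2,3,4,5,6,7,8,10,9,12,11]

lemma sw_sw : ∀ i, sw (sw i) = i := by decide

lemma phiZ_sq : phiZ * phiZ = (36 : ℤ) • (1 : Matrix (Fin 10) (Fin 10) ℤ) := by decide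

lemma phiZ_pt : ∀ i k, ∑ j, phiZ k j * nu (ptZ (sw i)) j = 6 * nu (ptZ i) k := by decide

def TZ : Matrix (Fin 7) (Fin 7) ℤ :=
  !![0, 0, 0, -1, 0, 0, 4; 0, 0, 0, 4, 0, 0, -1; 40, 0, 0, -14, 0, 0, 0; 0, 0, 6, -14, 0, 0, -20;
    20, 0, 0, 14, -6, 0, 0; 4, 6, 0, -3, 0, 0, 10; -10, 0, 0, 3, 0, -6, -4]

def SZ : Matrix (Fin 7) (Fin 7) ℤ :=
  !![42, 168, 45, 0, 0, 0, 0; -768, -72, -30, 0, 0, 300, 0; 1880, 1520, 0, 300, 0, 0, 0;
    120, 480, 0, 0, 0, 0, 0; 420, 1680, 150, 0, -300, 0, 0; -330, -120, -75, 0, 0, 0, -300;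
    480, 120, 0, 0, 0, 0, 0]

lemma TZ_eq : Tm phiZ = TZ := by decide

lemma SZ_TZ : SZ * TZ = (1800 : ℤ) • (1 : Matrix (Fin 7) (Fin 7) ℤ) := by decide

/-- the involution `φ` -/
noncomputable def phi : Matrix (Fin 10) (Fin 10) ℂ :=
  (1 / 6 : ℂ) • (Int.castRingHom ℂ).mapMatrix phiZ

lemma x0_eq (i : Fin 13) : x0 i = fun c => ((ptZ i c : ℤ) : ℂ) := by
  ext c
  fin_cases i <;> fin_cases c <;> simp [x0, ptZ]

lemma phi_sq : phi * phi = 1 := by
  have h := congrArg (Int.castRingHom ℂ).mapMatrix phiZ_sq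
  rw [map_mul] at h
  have h2 : (Int.castRingHom ℂ).mapMatrix ((36 : ℤ) • (1 : Matrix (Fin 10) (Fin 10) ℤ)) =
      (36 : ℂ) • (1 : Matrix (Fin 10) (Fin 10) ℂ) := by
    ext i j
    simp only [RingHom.mapMatrix_apply, Matrix.map_apply, Matrix.smul_apply, Matrix.one_apply,
      smul_eq_mul]
    split_ifs <;> simp
  rw [h2] at h
  rw [phi, Matrix.smul_mul, Matrix.mul_smul, h, smul_smul, smul_smul]
  norm_num

lemma phi_nu (i : Fin 13) : phi.mulVec (nu (x0 (sw i))) = nu (x0 i) := by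
  ext k
  have h := congrArg (Int.castRingHom ℂ) (phiZ_pt i k)
  rw [map_sum, map_mul] at h
  simp only [map_mul, nu_map] at h
  have e1 : (fun c => (Int.castRingHom ℂ) (ptZ (sw i) c)) = x0 (sw i) := (x0_eq _).symm
  have e2 : (fun c => (Int.castRingHom ℂ) (ptZ i c)) = x0 i := (x0_eq _).symm
  rw [e1, e2] at h
  rw [phi, Matrix.smul_mulVec, Pi.smul_apply, smul_eq_mul]
  have h3 : ((Int.castRingHom ℂ).mapMatrix phiZ).mulVec (nu (x0 (sw i))) k =
      ∑ j, (Int.castRingHom ℂ) (phiZ k j) * nu (x0 (sw i)) j := rfl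
  rw [h3, h]
  simp

lemma phi_det : phi.det ≠ 0 := by
  intro h
  have := congrArg Matrix.det phi_sq
  rw [Matrix.det_mul, h, Matrix.det_one, zero_mul] at this
  exact zero_ne_one this

lemma TZ_det : (Tm ((Int.castRingHom ℂ).mapMatrix phiZ)).det ≠ 0 := by
  rw [← Tm_map, TZ_eq, ← RingHom.map_det]
  have h := congrArg Matrix.det SZ_TZ
  rw [Matrix.det_mul, Matrix.det_smul, Matrix.det_one] at h
  have h2 : TZ.det ≠ 0 := by
    intro h0
    rw [h0, mul_zero] at h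
    norm_num at h
  simpa using h2

lemma base_det : (Tm (phi.adjugate * 1)).det ≠ 0 := by
  have hinv : phi⁻¹ = phi := Matrix.inv_eq_left_inv phi_sq
  have hadj : phi.adjugate = phi.det • phi := by
    symm
    calc phi.det • phi = phi.det • phi⁻¹ := by rw [hinv]
      _ = phi.det • (Ring.inverse phi.det • phi.adjugate) := by rw [Matrix.inv_def]
      _ = phi.adjugate := by
        rw [smul_smul, Ring.mul_inverse_cancel _ (isUnit_iff_ne_zero.2 phi_det), one_smul]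
  have h3 : (Tm phi).det ≠ 0 := by
    rw [phi, Tm_smul, Matrix.det_smul]
    exact mul_ne_zero (by norm_num) TZ_det
  rw [mul_one, hadj, Tm_smul, Matrix.det_smul]
  exact mul_ne_zero (pow_ne_zero _ (pow_ne_zero _ phi_det)) h3

/-- the second family of points -/
def y0 : Fin 13 → Fin 3 → ℂ := fun i => x0 (sw i)

lemma good_y0 : Good y0 := by
  intro t h1 h2
  have h := good_x0 (fun i => t (sw i)) ?_ ?_
  · ext i k
    have := congrFun (congrFun h (sw i)) k
    simp only [sw_sw] at this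
    exact this
  · intro k j
    rw [← Equiv.sum_comp ⟨sw, sw, sw_sw, sw_sw⟩]
    simp only [Equiv.coe_fn_mk, sw_sw]
    exact h1 k j
  · intro i c
    have := h2 (sw i) c
    simp only [y0, sw_sw] at this
    exact this

lemma Phi_x0 : Phi ((1 : Matrix (Fin 10) (Fin 10) ℂ), x0) = fun i => nu (x0 i) := by
  ext i k
  simp [Phi, Matrix.one_apply]

lemma Phi_y0 : Phi (phi, y0) = fun i => nu (x0 i) := by
  ext i k
  rw [← phi_nu i]
  rfl

end Pool.Agent.Helper91K9.Ver
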