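import Mathlib
import Pool.Agent.H462SN.Chev
import Pool.Agent.Helper91K9.Ver.Base

/-!
# General configurations of thirteen points
-/

set_option autoImplicit false
set_option linter.unusedSimpArgs false
set_option maxHeartbeats 1000000

namespace Pool.Agent.Helper91K9.Ver

/-- the variables -/
abbrev Sig : Type :=
  (Fin 10 × Fin 10) ⊕ (Fin 13 × Fin 3) ⊕ (Fin 10 × Fin 10) ⊕ (Fin 13 × Fin 3) ⊕ Unit

section
variable {R S : Type*} [CommRing R] [CommRing S]

def gG (z : Sig → R) : Matrix (Fin 10) (Fin 10) R := fun i j => z (.inl (i, j))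
def gX (z : Sig → R) : Fin 13 → Fin 3 → R := fun i c => z (.inr (.inl (i, c)))
def gH (z : Sig → R) : Matrix (Fin 10) (Fin 10) R := fun i j => z (.inr (.inr (.inl (i, j))))
def gY (z : Sig → R) : Fin 13 → Fin 3 → R := fun i c => z (.inr (.inr (.inr (.inl (i, c)))))
def gT (z : Sig → R) : R := z (.inr (.inr (.inr (.inr ()))))

/-- the equations -/
def eqs (z : Sig → R) : (Fin 13 × Fin 10) ⊕ Unit → R
  | .inl (i, k) => ∑ j, gG z k j * nu (gX z i) j - ∑ j, gH z k j * nu (gY z i) j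
  | .inr _ => gT z * ((gG z).det * (gH z).det * (Tm ((gH z).adjugate * gG z)).det) - 1

lemma eqs_map (f : R →+* S) (z : Sig → R) (e : (Fin 13 × Fin 10) ⊕ Unit) :
    f (eqs z e) = eqs (fun s => f (z s)) e := by
  rcases e with ⟨i, k⟩ | e
  · simp only [eqs, map_sub, map_sum, map_mul, nu_map]
    rfl
  · simp only [eqs, map_sub, map_mul, map_one, RingHom.map_det, Tm_map, RingHom.map_adjugate]
    rfl

end

open MvPolynomial

/-- the ideal of the equations -/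
noncomputable def II : Ideal (MvPolynomial Sig ℂ) :=
  Ideal.span (Set.range (eqs (fun s => (X s : MvPolynomial Sig ℂ))))

lemma mem_II (z : Sig → ℂ) : z ∈ zeroLocus ℂ II ↔ ∀ e, eqs z e = 0 := by
  have key : ∀ e, eval z (eqs (fun s => (X s : MvPolynomial Sig ℂ)) e) = eqs z e := by
    intro e
    rw [eqs_map]
    simp
  rw [II, mem_zeroLocus_iff]
  constructor
  · intro h e
    have := h _ (Ideal.subset_span ⟨e, rfl⟩)
    rw [aeval_eq_eval] at this
    rw [← key e]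
    exact this
  · intro h p hp
    have : II ≤ RingHom.ker (eval z) := by
      rw [II, Ideal.span_le]
      rintro _ ⟨e, rfl⟩
      show eval z _ = 0
      rw [key, h]
    rw [aeval_eq_eval]
    exact this hp

/-- the polynomial map -/
noncomputable def pm (t : Fin 13 × Fin 10) : MvPolynomial Sig ℂ :=
  ∑ j, gG (fun s => (X s : MvPolynomial Sig ℂ)) t.2 j *
    nu (gX (fun s => (X s : MvPolynomial Sig ℂ)) t.1) j

lemma eval_pm (z : Sig → ℂ) (t : Fin 13 × Fin 10) :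
    eval z (pm t) = Phi (gG z, gX z) t.1 t.2 := by
  simp only [pm, map_sum, map_mul, nu_map, Phi]
  refine Finset.sum_congr rfl fun j _ => ?_
  congr 1
  · simp [gG]
  · congr 1
    ext c
    simp [gX]

/-- assemble a point -/
def mkz (g : Fin 10 → Fin 10 → ℂ) (x : Fin 13 → Fin 3 → ℂ) (h : Fin 10 → Fin 10 → ℂ)
    (y : Fin 13 → Fin 3 → ℂ) (t : ℂ) : Sig → ℂ
  | .inl (i, j) => g i j
  | .inr (.inl (i, c)) => x i c
  | .inr (.inr (.inl (i, j))) => h i j
  | .inr (.inr (.inr (.inl (i, c)))) => y i c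
  | .inr (.inr (.inr (.inr _))) => t

/-- the condition on the two matrices -/
def cond (g h : Fin 10 → Fin 10 → ℂ) : ℂ :=
  (Matrix.of g).det * (Matrix.of h).det *
    (Tm ((Matrix.of h).adjugate * (Matrix.of g))).det

lemma continuous_cond : Continuous (fun p : (Fin 10 → Fin 10 → ℂ) × (Fin 10 → Fin 10 → ℂ) =>
    cond p.1 p.2) := by
  have h1 : Continuous (fun p : (Fin 10 → Fin 10 → ℂ) × (Fin 10 → Fin 10 → ℂ) =>
      (Matrix.of p.1 : Matrix (Fin 10) (Fin 10) ℂ)) := continuous_fst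
  have h2 : Continuous (fun p : (Fin 10 → Fin 10 → ℂ) × (Fin 10 → Fin 10 → ℂ) =>
      (Matrix.of p.2 : Matrix (Fin 10) (Fin 10) ℂ)) := continuous_snd
  have h3 : Continuous (fun p : (Fin 10 → Fin 10 → ℂ) × (Fin 10 → Fin 10 → ℂ) =>
      (Matrix.of p.2).adjugate * (Matrix.of p.1)) := h2.matrix_adjugate.matrix_mul h1
  have h4 : Continuous (fun p : (Fin 10 → Fin 10 → ℂ) × (Fin 10 → Fin 10 → ℂ) =>
      Tm ((Matrix.of p.2).adjugate * (Matrix.of p.1))) := by
    refine continuous_matrix fun q e => ?_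
    simp only [Tm]
    refine continuous_finsetSum _ fun a _ => continuous_finsetSum _ fun b _ => ?_
    split_ifs
    · simp only [cf]
      have h5 : ∀ i j, Continuous (fun p : (Fin 10 → Fin 10 → ℂ) × (Fin 10 → Fin 10 → ℂ) =>
          ((Matrix.of p.2).adjugate * (Matrix.of p.1)) i j) := fun i j => h3.matrix_elem i j
      exact ((h5 _ _).mul (h5 _ _)).sub ((h5 _ _).mul (h5 _ _))
    · exact continuous_const
  exact (h1.matrix_det.mul h2.matrix_det).mul h4.matrix_det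

lemma cond_base : cond (1 : Matrix (Fin 10) (Fin 10) ℂ) phi ≠ 0 := by
  have h : cond (1 : Matrix (Fin 10) (Fin 10) ℂ) phi =
      (1 : Matrix (Fin 10) (Fin 10) ℂ).det * phi.det *
        (Tm (phi.adjugate * (1 : Matrix (Fin 10) (Fin 10) ℂ))).det := rfl
  rw [h, Matrix.det_one, one_mul]
  exact mul_ne_zero phi_det base_det

lemma eqs_inl (g : Fin 10 → Fin 10 → ℂ) (x : Fin 13 → Fin 3 → ℂ) (h : Fin 10 → Fin 10 → ℂ)
    (y : Fin 13 → Fin 3 → ℂ) (t : ℂ) (i : Fin 13) (k : Fin 10) :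
    eqs (mkz g x h y t) (.inl (i, k)) = Phi (g, x) i k - Phi (h, y) i k := rfl

lemma eqs_inr (g : Fin 10 → Fin 10 → ℂ) (x : Fin 13 → Fin 3 → ℂ) (h : Fin 10 → Fin 10 → ℂ)
    (y : Fin 13 → Fin 3 → ℂ) (t : ℂ) (e : Unit) :
    eqs (mkz g x h y t) (.inr e) = t * cond g h - 1 := rfl

lemma Phi_mkz (g : Fin 10 → Fin 10 → ℂ) (x : Fin 13 → Fin 3 → ℂ) (h : Fin 10 → Fin 10 → ℂ)
    (y : Fin 13 → Fin 3 → ℂ) (t : ℂ) :
    Phi (gG (mkz g x h y t), gX (mkz g x h y t)) = Phi (g, x) := rfl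

attribute [irreducible] cond

lemma continuous_cond' : Continuous (fun p : ((Fin 10 → Fin 10 → ℂ) × (Fin 13 → Fin 3 → ℂ)) ×
    ((Fin 10 → Fin 10 → ℂ) × (Fin 13 → Fin 3 → ℂ)) => cond p.1.1 p.2.1) :=
  continuous_cond.comp ((continuous_fst.comp continuous_fst).prodMk
    (continuous_fst.comp continuous_snd))

lemma split_nhds (a b : (Fin 10 → Fin 10 → ℂ) × (Fin 13 → Fin 3 → ℂ)) (hab : cond a.1 b.1 ≠ 0) :
    ∃ U1 ∈ nhds a, ∃ U2 ∈ nhds b, ∀ p ∈ U1, ∀ q ∈ U2, cond p.1 q.1 ≠ 0 := by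
  have h := (continuous_cond'.continuousAt (x := (a, b))).eventually_ne (y := 0) hab
  rw [nhds_prod_eq, Filter.eventually_prod_iff] at h
  obtain ⟨P, hP, Q, hQ, h⟩ := h
  exact ⟨{p | P p}, hP, {q | Q q}, hQ, fun p hp q hq => h hp hq⟩

lemma near_gen (a b : (Fin 10 → Fin 10 → ℂ) × (Fin 13 → Fin 3 → ℂ)) (p : Fin 13 → Fin 10 → ℂ)
    (ha : Filter.map Phi (nhds a) = nhds p) (hb : Filter.map Phi (nhds b) = nhds p)
    (hab : cond a.1 b.1 ≠ 0) : ∃ W ∈ nhds p, ∀ w ∈ W,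
    ∃ z ∈ zeroLocus ℂ II, ∀ i k, Phi (gG z, gX z) i k = w i k := by
  obtain ⟨U1, hU1, U2, hU2, hU⟩ := split_nhds a b hab
  refine ⟨Phi '' U1 ∩ Phi '' U2, Filter.inter_mem ?_ ?_, ?_⟩
  · rw [← ha]; exact Filter.image_mem_map hU1
  · rw [← hb]; exact Filter.image_mem_map hU2
  · rintro w ⟨⟨⟨g, x⟩, h1, h1'⟩, ⟨⟨h, y⟩, h2, h2'⟩⟩
    have hc : cond g h ≠ 0 := hU _ h1 _ h2
    refine ⟨mkz g x h y (cond g h)⁻¹, ?_, ?_⟩
    · rw [mem_II]
      rintro (⟨i, k⟩ | e)
      · have e1 := congrFun (congrFun h1' i) k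
        have e2 := congrFun (congrFun h2' i) k
        rw [eqs_inl, e1, e2, sub_self]
      · rw [eqs_inr, inv_mul_cancel₀ hc, sub_self]
    · intro i k
      rw [Phi_mkz]
      exact congrFun (congrFun h1' i) k

lemma map_nhds (g : Fin 10 → Fin 10 → ℂ) (hg : (Matrix.of g).det ≠ 0) (x : Fin 13 → Fin 3 → ℂ)
    (hx : Good x) : Filter.map Phi (nhds (g, x)) = nhds (Phi (g, x)) := by
  have hstrict : HasStrictFDerivAt Phi (fderiv ℂ Phi (g, x)) (g, x) :=
    (contDiff_Phi.contDiffAt).hasStrictFDerivAt one_ne_zero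
  exact hstrict.map_nhds_eq_of_surj (surj g hg x hx)

/-- near the special configuration -/
lemma near : ∃ W ∈ nhds (fun i => nu (x0 i)), ∀ w ∈ W,
    ∃ z ∈ zeroLocus ℂ II, ∀ i k, Phi (gG z, gX z) i k = w i k := by
  have hdet1 : (Matrix.of (1 : Matrix (Fin 10) (Fin 10) ℂ)).det ≠ 0 := by
    have h : (Matrix.of (1 : Matrix (Fin 10) (Fin 10) ℂ)) = (1 : Matrix (Fin 10) (Fin 10) ℂ) := rfl
    rw [h, Matrix.det_one]; exact one_ne_zero
  have m1 := map_nhds (1 : Matrix (Fin 10) (Fin 10) ℂ) hdet1 x0 good_x0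
  have m2 := map_nhds phi phi_det y0 good_y0
  rw [Phi_x0] at m1
  rw [Phi_y0] at m2
  exact near_gen ((1 : Matrix (Fin 10) (Fin 10) ℂ), x0) (phi, y0) _ m1 m2 cond_base

lemma nonempty_II : (zeroLocus ℂ II).Nonempty := by
  obtain ⟨W, hW, h⟩ := near
  obtain ⟨z, hz, -⟩ := h _ (mem_of_mem_nhds hW)
  exact ⟨z, hz⟩

lemma dense_II (f : MvPolynomial (Fin 13 × Fin 10) ℂ)
    (hf : ∀ z ∈ zeroLocus ℂ II, eval (fun t => eval z (pm t)) f = 0) : f = 0 := by
  obtain ⟨W, hW, h⟩ := near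
  obtain ⟨ε, hε, hball⟩ := Metric.mem_nhds_iff.1 hW
  apply MvPolynomial.funext_set (fun t : Fin 13 × Fin 10 => Metric.ball (nu (x0 t.1) t.2) ε)
  · intro t
    exact infinite_of_mem_nhds _ (Metric.ball_mem_nhds _ hε)
  · intro y hy
    have hyW : (fun i k => y (i, k)) ∈ W := by
      apply hball
      rw [Metric.mem_ball, dist_pi_lt_iff hε]
      intro i
      rw [dist_pi_lt_iff hε]
      intro k
      exact hy (i, k) (Set.mem_univ _)
    obtain ⟨z, hz, hzy⟩ := h _ hyW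
    have := hf z hz
    rw [map_zero, ← this]
    congr 1
    congr 1
    ext t
    rw [eval_pm, hzy]

theorem core : ∃ F : MvPolynomial (Fin 13 × Fin 10) ℂ, F ≠ 0 ∧
    ∀ v : Fin 13 → Fin 10 → ℂ, eval (fun ij => v ij.1 ij.2) F ≠ 0 →
      ∃ (g h : Matrix (Fin 10) (Fin 10) ℂ) (x y : Fin 13 → Fin 3 → ℂ),
        (∀ i, g.mulVec (nu (x i)) = v i) ∧ (∀ i, h.mulVec (nu (y i)) = v i) ∧
        g.det ≠ 0 ∧ h.det ≠ 0 ∧ (Tm (h.adjugate * g)).det ≠ 0 := by
  obtain ⟨F, ⟨z0, hz0, hF0⟩, hF⟩ := H462SN.chev II pm nonempty_II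
  refine ⟨F, ?_, ?_⟩
  · rintro rfl
    exact hF0 (map_zero _)
  · intro v hv
    obtain ⟨z, hz, hzv⟩ := hF (fun ij => v ij.1 ij.2) (fun f hf => by
      rw [dense_II f hf, map_zero]) hv
    rw [mem_II] at hz
    have h1 : ∀ i k, Phi (gG z, gX z) i k = v i k := fun i k => by
      rw [← eval_pm z (i, k), hzv]
    refine ⟨gG z, gH z, gX z, gY z, ?_, ?_, ?_⟩
    · intro i
      ext k
      exact h1 i k
    · intro i
      ext k
      have h2 := hz (.inl (i, k))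
      have h3 : Phi (gG z, gX z) i k - Phi (gH z, gY z) i k = 0 := h2
      rw [h1] at h3
      exact (sub_eq_zero.1 h3).symm
    · have h4 := hz (.inr ())
      have h5 : gT z * ((gG z).det * (gH z).det * (Tm ((gH z).adjugate * gG z)).det) = 1 :=
        sub_eq_zero.1 h4
      have h6 := right_ne_zero_of_mul_eq_one h5
      exact ⟨left_ne_zero_of_mul (left_ne_zero_of_mul h6), right_ne_zero_of_mul
        (left_ne_zero_of_mul h6), right_ne_zero_of_mul h6⟩

end Pool.Agent.Helper91K9.Ver
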