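import Mathlib

/-!
# Veronese varieties through general points: definitions
-/

set_option autoImplicit false

open scoped LinearAlgebra.Projectivization

namespace Pool.Agent.Helper91K9.Ver

/-- The exponent vectors of the monomials of degree `r` in `n + 1` variables. -/
def Mon (n r : ℕ) : Type := {a : Fin (n + 1) → Fin (r + 1) // ∑ i, (a i : ℕ) = r}

instance (n r : ℕ) : Fintype (Mon n r) := by unfold Mon; infer_instance
instance (n r : ℕ) : DecidableEq (Mon n r) := by unfold Mon; infer_instance

/-- The vector of the values at `x` of all the monomials of degree `r` in `n + 1` variables. -/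
def veroneseVector (n r : ℕ) (x : Fin (n + 1) → ℂ) : Mon n r → ℂ :=
  fun a => ∏ i, x i ^ (a.1 i : ℕ)

/-- `V ⊆ ℙ^(N-1)` is an `r`-Veronese variety of dimension `n`: the image of `ℙ^n` under the
degree `r` Veronese map followed by an invertible linear change of the coordinates.
(For this `N` must be the number `(n + r).choose r` of the monomials.) -/
def IsVeronese (n r : ℕ) {N : ℕ} (V : Set (ℙ ℂ (Fin N → ℂ))) : Prop :=
  ∃ g : (Mon n r → ℂ) ≃ₗ[ℂ] (Fin N → ℂ),
    V = {P | ∃ (x : Fin (n + 1) → ℂ) (_ : x ≠ 0) (hg : g (veroneseVector n r x) ≠ 0),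
      P = Projectivization.mk ℂ (g (veroneseVector n r x)) hg}

/-- The property `Q` holds for `m` general points of `ℙ^(N-1)`: there is a nonzero polynomial `F`
in the homogeneous coordinates of `m` points such that all the `m`-tuples of points with `F ≠ 0`
(for some choice of the homogeneous coordinates) have the property `Q`. -/
def ForGeneral (m N : ℕ) (Q : (Fin m → ℙ ℂ (Fin N → ℂ)) → Prop) : Prop :=
  ∃ F : MvPolynomial (Fin m × Fin N) ℂ, F ≠ 0 ∧
    ∀ (v : Fin m → Fin N → ℂ) (hv : ∀ i, v i ≠ 0),
      MvPolynomial.eval (fun ij => v ij.1 ij.2) F ≠ 0 →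
        Q (fun i => Projectivization.mk ℂ (v i) (hv i))

end Pool.Agent.Helper91K9.Ver
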